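import Pool.Agent.Lib.MP_436e1a_gt.D.Avoid

/-! Removing a closed thin set of dimension two does not change connectivity and simple
connectivity. -/

open scoped ContDiff Topology
open Set

namespace Pool.Agent.CSP

variable {M : Mfd} (A : Amb M) {Z : Set M}

instance Mfd.pathConnected (M : Mfd) : PathConnectedSpace M :=
  have := ChartedSpace.locallyPathConnectedSpace (E 5) M
  .of_locallyPathConnectedSpace

theorem conn_av (hZ : Thin 2 (A.ι '' Z)) {V : Type} [NormedAddCommGroup V] [NormedSpace ℝ V]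
    [FiniteDimensional ℝ V] (hV : Module.finrank ℝ V ≤ 2) {K C : Set V} (hK : IsCompact K)
    (hC : IsClosed C) {f : V → M} (hf : ContinuousOn f K) (h : ∀ x ∈ K, x ∈ C → f x ∉ Z) :
    ∃ H : ℝ × V → M, ContinuousOn H (Icc 0 1 ×ˢ K) ∧ (∀ x ∈ K, H (0, x) = f x) ∧
      (∀ t ∈ Icc (0 : ℝ) 1, ∀ x ∈ K, x ∈ C → H (t, x) = f x) ∧ ∀ x ∈ K, H (1, x) ∉ Z := by
  obtain ⟨H, h1, h2, h3, h4, -⟩ := Ctx.avoid (c := Ctx.triv M A) hK hC hf (ι := Unit)
    (k := fun _ => 2) (l := fun _ => 2) (T := fun _ => univ) (fun _ => thin_of_finrank hV _)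
    (fun _ => hZ) (fun _ => le_rfl) one_pos
  refine ⟨H, h1, h2, fun t ht x hx => (h3 t ht x hx).1, fun x hx e => ?_⟩
  by_cases hc : x ∈ C
  · exact h x hx hc ((h3 1 (right_mem_Icc.2 zero_le_one) x hx).1 hc ▸ e)
  · exact h4 () x hx trivial hc ⟨_, e, rfl⟩

theorem conn_path (hZ : Thin 2 (A.ι '' Z)) {x y : M} (hx : x ∉ Z) (hy : y ∉ Z) (p : Path x y) :
    ∃ q : Path x y, (∀ t, q t ∈ Zᶜ) ∧ p.Homotopic q := by
  obtain ⟨H, h1, h2, h3, h4⟩ := conn_av A hZ (V := ℝ) (by simp) (isCompact_Icc (a := 0) (b := 1))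
    (C := {0, 1}) (toFinite _).isClosed p.continuous_extend.continuousOn (by
      rintro t - (rfl | rfl)
      · rwa [p.extend_zero]
      · rwa [p.extend_one])
  have hc : Continuous fun u : unitInterval × unitInterval => H (u.1, u.2) :=
    h1.comp_continuous (by fun_prop) fun u => ⟨u.1.2, u.2.2⟩
  have h5 : ∀ s t : unitInterval, t ∈ ({0, 1} : Set unitInterval) → H (s, t) = p t :=
    fun s t ht => (h3 s s.2 t t.2 (by rcases ht with rfl | rfl <;> simp)).trans (p.extend_extends' t)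
  exact ⟨⟨⟨fun t => H (1, t), hc.comp (continuous_const (y := 1).prodMk continuous_id)⟩,
    (h5 1 0 (by simp)).trans p.source, (h5 1 1 (by simp)).trans p.target⟩, fun t => h4 t t.2,
    ⟨⟨⟨⟨_, hc⟩, fun t => (h2 t t.2).trans (p.extend_extends' t), fun _ => rfl⟩, h5⟩⟩⟩

theorem pathConn_compl (hZ : Thin 2 (A.ι '' Z)) : IsPathConnected Zᶜ := by
  obtain ⟨x⟩ : Nonempty M := inferInstance
  obtain ⟨H, -, -, -, h⟩ := conn_av A hZ (V := ℝ) (by simp) (isCompact_singleton (x := 0))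
    isClosed_empty (continuousOn_const (c := x)) fun _ _ h => h.elim
  refine ⟨_, h 0 rfl, fun y hy => ?_⟩
  obtain ⟨q, hq, -⟩ := conn_path A hZ (h 0 rfl) hy (PathConnectedSpace.somePath _ _)
  exact ⟨q, hq⟩

theorem sc_compl (hZ : Thin 2 (A.ι '' Z)) [SimplyConnectedSpace M] :
    SimplyConnectedSpace (Zᶜ : Set M) := by
  refine isSimplyConnected_iff_exists_homotopy_refl_forall_mem.2
    ⟨pathConn_compl A hZ, fun x p hp => ?_⟩
  obtain ⟨F⟩ := SimplyConnectedSpace.paths_homotopic p (.refl x)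
  have hx : x ∉ Z := p.source ▸ hp 0
  obtain ⟨H, h1, -, h3, h4⟩ := conn_av A hZ (V := ℝ × ℝ) (by simp)
    ((isCompact_Icc (a := 0) (b := 1)).prod (isCompact_Icc (a := 0) (b := 1)))
    (C := Prod.fst ⁻¹' {0, 1} ∪ Prod.snd ⁻¹' {0, 1})
    (((toFinite _).isClosed.preimage continuous_fst).union
      ((toFinite _).isClosed.preimage continuous_snd))
    (f := fun u => F (projIcc 0 1 zero_le_one u.1, projIcc 0 1 zero_le_one u.2))
    (Continuous.continuousOn (by fun_prop)) (by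
      rintro ⟨s, t⟩ - ((rfl | rfl) | rfl | rfl)
      · simpa using hp _
      · simpa using hx
      · simpa using hx
      · simpa using hx)
  have h5 : ∀ s t : unitInterval, s ∈ ({0, 1} : Set unitInterval) ∨
      t ∈ ({0, 1} : Set unitInterval) → H (1, s, t) = F (s, t) := fun s t h =>
    (h3 1 (right_mem_Icc.2 zero_le_one) (s, t) ⟨s.2, t.2⟩
      (by rcases h with (rfl | rfl) | rfl | rfl <;> simp)).trans (by simp)
  exact ⟨⟨⟨⟨fun u => H (1, u.1, u.2), h1.comp_continuous (by fun_prop) fun u =>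
    ⟨right_mem_Icc.2 zero_le_one, u.1.2, u.2.2⟩⟩,
    fun t => (h5 0 t (by simp)).trans (F.map_zero_left t),
    fun t => (h5 1 t (by simp)).trans (F.map_one_left t)⟩,
    fun s t ht => (h5 s t (.inr ht)).trans (F.prop' s t ht)⟩, fun u => h4 _ ⟨u.1.2, u.2.2⟩⟩

theorem sc_of_compl (hZ : Thin 2 (A.ι '' Z)) [SimplyConnectedSpace (Zᶜ : Set M)] :
    SimplyConnectedSpace M := by
  obtain ⟨⟨x₀, h0, -⟩, h⟩ := (isSimplyConnected_iff_exists_homotopy_refl_forall_mem
    (s := Zᶜ)).1 ‹_›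
  refine simply_connected_iff_loops_nullhomotopic.2 ⟨inferInstance, fun x γ => ?_⟩
  let a := PathConnectedSpace.somePath x₀ x
  obtain ⟨q, h1, h2⟩ := conn_path A hZ h0 h0 (a.trans (γ.trans a.symm))
  obtain ⟨F, -⟩ := h x₀ q h1
  have e := congrArg (fun c => ((Path.Homotopic.Quotient.mk a).symm.trans c).trans
    (Path.Homotopic.Quotient.mk a)) (Path.Homotopic.Quotient.eq.2 (h2.trans ⟨F⟩))
  refine Path.Homotopic.Quotient.eq.1 ?_
  simp [← Path.Homotopic.Quotient.trans_assoc] at e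
  simpa using e

end Pool.Agent.CSP
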