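import Pool.Agent.Lib.MP_436e1a_gt.B.Lift
import Pool.Agent.Lib.MP_436e1a_gt.A.ThinL
import Pool.Agent.Lib.MP_436e1a_gt.A.SmoothRel
import Pool.Agent.Lib.MP_436e1a_gt.A.Gen

/-! General position with respect to thin sets, relative to a closed set. -/

open scoped ContDiff Topology
open Set

namespace Pool.Agent.CSP

namespace Ctx

variable {c : Ctx} {V : Type} [NormedAddCommGroup V] [NormedSpace ℝ V] [FiniteDimensional ℝ V]

omit [FiniteDimensional ℝ V] in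
/-- one pair of charts: almost every parameter is good -/
theorem av_gen {C : Set V} (hC : IsClosed C) {g : V → E c.N} (hg : ContDiffOn ℝ ∞ g Cᶜ)
    {lam : V → ℝ} (hl : ContDiff ℝ ∞ lam) (hl0 : ∀ x, x ∉ C → lam x ≠ 0) {k l : ℕ}
    (hkl : k + l ≤ 4) {O : Set (E k)} {φ : E k → V} (hO : IsOpen O) (hφ : ContDiffOn ℝ ∞ φ O)
    {O' : Set (E l)} {ψ : E l → E c.N} (hO' : IsOpen O') (hψ : ContDiffOn ℝ ∞ ψ O') :
    ∀ᵐ b : E c.N, ∀ u ∈ O, ∀ u' ∈ O', φ u ∉ C → g (φ u) + lam (φ u) • b ∈ c.U →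
      c.ρ (g (φ u) + lam (φ u) • b) ≠ ψ u' := by
  let O₁ : Set (E c.N × E k × E l) := univ ×ˢ (O ∩ φ ⁻¹' Cᶜ) ×ˢ O'
  have hO₁ : IsOpen O₁ :=
    isOpen_univ.prod ((hφ.continuousOn.isOpen_inter_preimage hO hC.isOpen_compl).prod hO')
  let a : E c.N × E k × E l → E c.N := fun p => g (φ p.2.1) + lam (φ p.2.1) • p.1
  have hφ1 : ContDiffOn ℝ ∞ (fun p : E c.N × E k × E l => φ p.2.1) O₁ :=
    hφ.comp contDiff_snd.fst.contDiffOn fun p hp => hp.2.1.1
  have ha : ContDiffOn ℝ ∞ a O₁ :=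
    (hg.comp hφ1 fun p hp => hp.2.1.2).add
      ((hl.comp_contDiffOn hφ1).smul contDiff_fst.contDiffOn)
  have hO₂ : IsOpen (O₁ ∩ a ⁻¹' c.U) := ha.continuousOn.isOpen_inter_preimage hO₁ c.A.U_open
  have hw : ContDiffOn ℝ ∞ (fun p => c.ρ (a p) - ψ p.2.2) (O₁ ∩ a ⁻¹' c.U) :=
    (c.contDiffOn_ρ.comp (ha.mono inter_subset_left) fun p hp => hp.2).sub
      (hψ.comp contDiff_snd.snd.contDiffOn fun p hp => hp.1.2.2)
  have hV : Module.finrank ℝ (E k × E l) < 5 := by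
    rw [Module.finrank_prod, finrank_euclideanSpace_fin, finrank_euclideanSpace_fin]
    omega
  have key := gen0 MeasureTheory.volume hV hO₂ hw fun p hp _ => by
    rw [← c.finrank_range_dι (c.r (a p)), ← c.range_fderiv_ρ hp.2]
    refine Submodule.finrank_mono ?_
    rintro _ ⟨v, rfl⟩
    have h1 := ((hw.contDiffAt (hO₂.mem_nhds hp)).differentiableAt (by simp)).hasFDerivAt
    have h2 := HasFDerivAt.comp (f := fun b : E c.N => (b, p.2)) p.1 h1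
      (hasFDerivAt_prodMk_left p.1 p.2)
    have h3 : HasFDerivAt (fun b : E c.N => g (φ p.2.1) + lam (φ p.2.1) • b)
        (lam (φ p.2.1) • ContinuousLinearMap.id ℝ (E c.N)) p.1 :=
      (lam (φ p.2.1) • ContinuousLinearMap.id ℝ (E c.N)).hasFDerivAt.const_add _
    have h4 := (HasFDerivAt.comp p.1 (c.sm_ρ hp.2).hasFDerivAt h3).sub_const (ψ p.2.2)
    have h5 := DFunLike.congr_fun (h2.unique h4) ((lam (φ p.2.1))⁻¹ • v)
    refine ⟨((lam (φ p.2.1))⁻¹ • v, 0), h5.trans ?_⟩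
    change fderiv ℝ c.ρ (a p) (lam (φ p.2.1) • (lam (φ p.2.1))⁻¹ • v) = fderiv ℝ c.ρ (a p) v
    rw [smul_inv_smul₀ (hl0 _ hp.1.2.1.2)]
  filter_upwards [key] with b hb u hu u' hu' h1 h2 h3
  exact hb (u, u') ⟨⟨mem_univ _, ⟨hu, h1⟩, hu'⟩, h2⟩ (sub_eq_zero.2 h3)

/-- A map of a compact set can be moved a little, keeping it on `C`, so that it becomes smooth off `C`
and the thin parts `T m` miss the thin sets `A m` off `C`. -/
theorem avoid {K C : Set V} (hK : IsCompact K) (hC : IsClosed C) {f : V → c.Y}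
    (hf : ContinuousOn f K) {ι : Type} [Countable ι] {k l : ι → ℕ} {T : ι → Set V}
    {A : ι → Set (E c.N)} (hT : ∀ m, Thin (k m) (T m)) (hA : ∀ m, Thin (l m) (A m))
    (hkl : ∀ m, k m + l m ≤ 4) {ε : ℝ} (hε : 0 < ε) :
    ∃ H : ℝ × V → c.Y, ContinuousOn H (Icc 0 1 ×ˢ K) ∧ (∀ x ∈ K, H (0, x) = f x) ∧
      (∀ t ∈ Icc (0 : ℝ) 1, ∀ x ∈ K, (x ∈ C → H (t, x) = f x) ∧
        ‖c.am H (t, x) - c.am f x‖ < ε) ∧
      (∀ m, ∀ x ∈ K, x ∈ T m → x ∉ C → c.am H (1, x) ∉ A m) ∧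
      ∃ (O : Set V) (g : V → E c.N), IsOpen O ∧ K \ C ⊆ O ∧ ContDiffOn ℝ ∞ g O ∧
        ∀ x ∈ K \ C, c.am H (1, x) = g x := by
  obtain ⟨δ, hδ, hrad⟩ := c.exists_rad_close hε
  obtain ⟨g, gc, gE, gs, gcl⟩ := smoothrel hK.isClosed hC (c.continuousOn_am hf) (half_pos hδ)
  obtain ⟨lam, ls, lc, lr⟩ := hC.isOpen_compl.exists_contDiff_support_eq (n := ⊤)
  have hl0 : ∀ x, x ∉ C → lam x ≠ 0 := fun x hx => Function.mem_support.1 (ls ▸ hx)
  have hl1 : ∀ x ∈ C, lam x = 0 := fun x hx =>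
    Function.notMem_support.1 (ls ▸ fun h => h hx)
  choose OT φ hφ hTc using hT
  choose OA ψ hψ hAc using hA
  have hae : ∀ᵐ b : E c.N, ∀ m n n', ∀ u ∈ OT m n, ∀ u' ∈ OA m n', φ m n u ∉ C →
      g (φ m n u) + lam (φ m n u) • b ∈ c.U →
        c.ρ (g (φ m n u) + lam (φ m n u) • b) ≠ ψ m n' u' :=
    MeasureTheory.ae_all_iff.2 fun m => MeasureTheory.ae_all_iff.2 fun n =>
      MeasureTheory.ae_all_iff.2 fun n' =>
        av_gen hC gs lc hl0 (hkl m) (hφ m n).1 (hφ m n).2 (hψ m n').1 (hψ m n').2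
  obtain ⟨b, hb, hbδ⟩ := ((freq_of_ae MeasureTheory.volume hae).and_eventually
    (Metric.ball_mem_nhds (0 : E c.N) (half_pos hδ))).exists
  rw [dist_zero_right] at hbδ
  let w : V → E c.N := fun x => g x - c.am f x + lam x • b
  have hwc : ContinuousOn w K :=
    (gc.continuousOn.sub (c.continuousOn_am hf)).add
      (lc.continuous.smul continuous_const).continuousOn
  have hwn : ∀ x ∈ K, ∀ s ∈ Icc (0 : ℝ) 1, ‖s • w x‖ < δ := fun x hx s hs => by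
    have h1 := lr (mem_range_self x)
    have h2 : ‖lam x • b‖ ≤ ‖b‖ := by
      rw [norm_smul, Real.norm_of_nonneg h1.1]
      exact mul_le_of_le_one_left (norm_nonneg _) h1.2
    have h3 : ‖w x‖ ≤ ‖g x - c.am f x‖ + ‖lam x • b‖ := norm_add_le _ _
    have h4 : ‖s • w x‖ ≤ ‖w x‖ := by
      rw [norm_smul, Real.norm_of_nonneg hs.1]
      exact mul_le_of_le_one_left (norm_nonneg _) hs.2
    have h5 := gcl x hx
    linarith
  obtain ⟨H, H1, H2, H3, H4⟩ := c.lift_push hf hwc fun x hx s hs =>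
    (hrad (c.q (f x)) _ (hwn x hx s hs)).1
  have he : ∀ x, c.am f x + (1 : ℝ) • w x = g x + lam x • b := fun x => by
    simp only [w, one_smul]
    abel
  have hU : ∀ x ∈ K, g x + lam x • b ∈ c.U := fun x hx =>
    he x ▸ (hrad (c.q (f x)) _ (hwn x hx 1 ⟨zero_le_one, le_rfl⟩)).1
  have hend : ∀ x ∈ K, c.am H (1, x) = c.ρ (g x + lam x • b) := fun x hx =>
    (H3 (1, x) ⟨⟨zero_le_one, le_rfl⟩, hx⟩).trans (congrArg c.ρ (he x))
  have hs : ContDiffOn ℝ ∞ (fun x => g x + lam x • b) Cᶜ :=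
    gs.add (lc.smul contDiff_const).contDiffOn
  refine ⟨H, H1, H2, fun t ht x hx => ⟨fun hxC => H4 x hx ?_ t ht, ?_⟩, fun m x hx hxT hxC hxA => ?_,
    Cᶜ ∩ (fun x => g x + lam x • b) ⁻¹' c.U, fun x => c.ρ (g x + lam x • b),
    hs.continuousOn.isOpen_inter_preimage hC.isOpen_compl c.A.U_open,
    fun x hx => ⟨hx.2, hU x hx.1⟩,
    c.contDiffOn_ρ.comp (hs.mono inter_subset_left) fun x hx => hx.2, fun x hx => hend x hx.1⟩
  · simp only [w, gE ⟨hx, hxC⟩, hl1 x hxC, sub_self, zero_smul, add_zero]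
  · rw [H3 (t, x) ⟨ht, hx⟩]
    exact (hrad (c.q (f x)) _ (hwn x hx t ht)).2
  · obtain ⟨n, u, hu, rfl⟩ := mem_iUnion.1 (hTc m hxT)
    obtain ⟨n', u', hu', h⟩ := mem_iUnion.1 (hAc m hxA)
    exact hb m n n' u hu u' hu' hxC (hU _ hx) ((hend _ hx).symm.trans h.symm)

theorem SmNear.thin {f : V → c.Y} {K : Set V} (hf : c.SmNear f K) {k : ℕ} (hK : Thin k K) :
    Thin k (c.am f '' K) := by
  obtain ⟨O, hO, hKO, -, hs⟩ := hf
  exact hK.image hO hKO hs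

/-- a map of the sphere is homotopic to one with thin image that misses a given thin set -/
theorem avoid_S2 {a : E 3 → c.Y} (ha : ContinuousOn a S2) {A : Set (E c.N)} (hA : Thin 2 A) :
    ∃ a', ContinuousOn a' S2 ∧ HtpOn S2 a a' ∧ Thin 2 (c.am a' '' S2) ∧
      ∀ x ∈ S2, c.am a' x ∉ A := by
  obtain ⟨H, H1, H2, -, H4, O, g, hO, hKO, hg, he⟩ :=
    avoid (c := c) (isCompact_sphere (0 : E 3) 1) isClosed_empty ha (ι := Unit) (k := fun _ => 2)
      (l := fun _ => 2) (T := fun _ => S2) (A := fun _ => A) (fun _ => thin_S2) (fun _ => hA)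
      (fun _ => le_rfl) one_pos
  rw [sdiff_empty] at hKO he
  refine ⟨fun x => H (1, x), H1.comp (continuous_const.prodMk continuous_id).continuousOn
    fun x hx => ⟨⟨zero_le_one, le_rfl⟩, hx⟩, ⟨H, H1, H2, fun _ _ => rfl⟩, ?_,
    fun x hx => H4 () x hx hx (notMem_empty x)⟩
  refine (thin_S2.image hO hKO hg).mono ?_
  rintro _ ⟨x, hx, rfl⟩
  exact ⟨x, hx, (he x hx).symm⟩

end Ctx

end Pool.Agent.CSP
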